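import Mathlib
import Pool.Agent.R475.UFL

open Filter

namespace Pool.Agent.Results.MP_b27926_lc.MinimalNotFeMinimal

open Pool.Agent.R475.UF

/-- `F ≠ 1` is minimal for the relation `ρ`: every `G` with `G ρ F` is `1` or equivalent to `F`. -/
def IsMin (ρ : Ultrafilter ℕ+ → Ultrafilter ℕ+ → Prop) (F : Ultrafilter ℕ+) : Prop :=
  F ≠ pure 1 ∧ ∀ G, ρ G F → G = pure 1 ∨ (ρ G F ∧ ρ F G)

/-- **Negative answer to MP_b27926_lc.** There is an ultrafilter on the positive integers that is
minimal for M-divisibility but not minimal for finite embeddability. -/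
theorem result : ∃ F : Ultrafilter ℕ+, IsMin MDiv F ∧ ¬ IsMin Fe F := by
  refine ⟨L0, ⟨L0_ne_one, fun G hG => ?_⟩, fun h => ?_⟩
  · rcases mdiv_L0 hG with h1 | h1
    · exact Or.inl h1
    · subst h1
      exact Or.inr ⟨hG, hG⟩
  · rcases h.2 F0 fe_F0_L0 with h1 | h1
    · exact F0_ne_one h1
    · exact not_fe_L0_F0 h1.2

end Pool.Agent.Results.MP_b27926_lc.MinimalNotFeMinimal
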